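import Pool.Agent.H72.UV.Basic

/-!
Permutations normalising a group of permutations preserve its orbits, algebraic closures, cells.
-/

set_option autoImplicit false

open Set

namespace Pool.Agent.H46.UV

open Pool.Agent.H71 (Fx orb acl mem_Fx)
open Pool.Agent.H72.UV

variable {G : Subgroup (Equiv.Perm ℕ)} {ψ : Equiv.Perm ℕ}

/-- `ψ` normalises `G` -/
def Norm (G : Subgroup (Equiv.Perm ℕ)) (ψ : Equiv.Perm ℕ) : Prop :=
  ∀ h, h ∈ G ↔ ψ * h * ψ⁻¹ ∈ G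

lemma Norm.of_mem {g : Equiv.Perm ℕ} (hg : g ∈ G) : Norm G g := by
  intro h
  constructor
  · intro hh
    exact G.mul_mem (G.mul_mem hg hh) (G.inv_mem hg)
  · intro hh
    have := G.mul_mem (G.mul_mem (G.inv_mem hg) hh) hg
    simpa [mul_assoc] using this

lemma Norm.mk' (h1 : ∀ h ∈ G, ψ * h * ψ⁻¹ ∈ G) (h2 : ∀ h ∈ G, ψ⁻¹ * h * ψ ∈ G) : Norm G ψ := by
  intro h
  refine ⟨h1 h, fun hh => ?_⟩
  have := h2 _ hh
  simpa [mul_assoc] using this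

lemma Norm.inv (h : Norm G ψ) : Norm G ψ⁻¹ := by
  intro g
  rw [h (ψ⁻¹ * g * ψ⁻¹⁻¹)]
  simp [mul_assoc]

lemma Norm.orb_subset (h : Norm G ψ) (F : Finset ℕ) (x y : ℕ) (hy : y ∈ orb G F x) :
    ψ y ∈ orb G (F.image ψ) (ψ x) := by
  obtain ⟨g, hg, rfl⟩ := hy
  refine ⟨ψ * g * ψ⁻¹, ⟨(h g).1 hg.1, ?_⟩, by simp⟩
  intro a ha
  obtain ⟨b, hb, rfl⟩ := Finset.mem_image.1 ha
  simp [hg.2 b hb]

lemma Norm.mem_orb (h : Norm G ψ) (F : Finset ℕ) (x y : ℕ) :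
    ψ y ∈ orb G (F.image ψ) (ψ x) ↔ y ∈ orb G F x := by
  refine ⟨fun hy => ?_, h.orb_subset F x y⟩
  have := h.inv.orb_subset _ _ _ hy
  simpa [Finset.image_image] using this

lemma Norm.mem_orb_empty (h : Norm G ψ) (x y : ℕ) :
    ψ y ∈ orb G ∅ (ψ x) ↔ y ∈ orb G ∅ x := by
  have := h.mem_orb ∅ x y
  rwa [Finset.image_empty] at this

lemma Norm.orb_image (h : Norm G ψ) (F : Finset ℕ) (x : ℕ) :
    orb G (F.image ψ) (ψ x) = ψ '' orb G F x := by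
  ext z
  constructor
  · intro hz
    refine ⟨ψ.symm z, ?_, by simp⟩
    rw [← h.mem_orb, Equiv.apply_symm_apply]
    exact hz
  · rintro ⟨y, hy, rfl⟩
    exact (h.mem_orb F x y).2 hy

lemma Norm.mem_acl (h : Norm G ψ) (F : Finset ℕ) (x : ℕ) :
    ψ x ∈ acl G (F.image ψ) ↔ x ∈ acl G F := by
  change (orb G (F.image ψ) (ψ x)).Finite ↔ (orb G F x).Finite
  rw [h.orb_image, Set.finite_image_iff ψ.injective.injOn]

lemma Norm.mem_acl_empty (h : Norm G ψ) (x : ℕ) : ψ x ∈ acl G ∅ ↔ x ∈ acl G ∅ := by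
  have := h.mem_acl ∅ x
  rwa [Finset.image_empty] at this

lemma Norm.mem_cell (h : Norm G ψ) (x y : ℕ) : ψ y ∈ cell G (ψ x) ↔ y ∈ cell G x := by
  have h1 := h.mem_acl {x} y
  rw [Finset.image_singleton] at h1
  change (ψ y ∈ acl G {ψ x} ∧ ψ y ∉ acl G ∅) ↔ (y ∈ acl G {x} ∧ y ∉ acl G ∅)
  rw [h1, h.mem_acl_empty]

lemma Norm.core (h : Norm G ψ) : Norm (core G) ψ := by
  have key : ∀ χ : Equiv.Perm ℕ, Norm G χ → ∀ g ∈ Pool.Agent.H72.UV.core G,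
      χ * g * χ⁻¹ ∈ Pool.Agent.H72.UV.core G := by
    intro χ hχ g hg
    refine ⟨(hχ g).1 hg.1, fun a ha => ?_⟩
    have h1 : χ⁻¹ a ∈ acl G ∅ := (hχ.inv.mem_acl_empty a).2 ha
    have h2 := hg.2 _ h1
    rw [Equiv.Perm.mul_apply, Equiv.Perm.mul_apply, h2]
    simp
  refine Norm.mk' (key ψ h) ?_
  intro g hg
  have := key ψ⁻¹ h.inv g hg
  simpa using this

lemma Norm.finAut {C : Type} {c : Str ℕ C} {m : ℕ}
    (h : ∀ l : List ℕ, l.length ≤ m → c (l.map ψ) = c l) : Norm (FinAut (tr m c)) ψ := by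
  have hinv : ∀ l : List ℕ, l.length ≤ m → c (l.map (ψ⁻¹ : Equiv.Perm ℕ)) = c l := by
    intro l hl
    rw [← h _ (by simpa using hl), List.map_map]
    congr 1
    conv_rhs => rw [← List.map_id l]
    congr 1
    funext x
    simp
  have key : ∀ χ : Equiv.Perm ℕ, (∀ l : List ℕ, l.length ≤ m → c (l.map χ) = c l) →
      (∀ l : List ℕ, l.length ≤ m → c (l.map (χ⁻¹ : Equiv.Perm ℕ)) = c l) →
      ∀ g ∈ FinAut (tr m c), χ * g * χ⁻¹ ∈ FinAut (tr m c) := by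
    intro χ h1 h2 g hg
    rw [mem_finAut_tr] at hg ⊢
    refine ⟨(hg.1.image χ).subset ?_, ?_⟩
    · intro x hx
      refine ⟨χ⁻¹ x, ?_, by simp⟩
      intro hx2
      apply hx
      rw [Equiv.Perm.mul_apply, Equiv.Perm.mul_apply, hx2]
      simp
    · intro l hl
      rw [Equiv.Perm.coe_mul, Equiv.Perm.coe_mul, ← List.map_map, ← List.map_map,
        h1 _ (by simpa using hl), hg.2 _ (by simpa using hl), h2 _ hl]
  refine Norm.mk' (key ψ h hinv) ?_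
  intro g hg
  have := key ψ⁻¹ hinv (by simpa using h) g hg
  simpa using this

end Pool.Agent.H46.UV
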