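import Pool.Agent.H72.UV.Targets
import Pool.Agent.H46.UV.Norm

/-!
Module FRAME: structures with the same reducts come from threads.
-/

set_option autoImplicit false

open Set

namespace Pool.Agent.H46.UV

open Pool.Agent.H71 (Fx orb acl mem_Fx orb_eq orb_symm)
open Pool.Agent.H72.UV

/-- enumeration of a finite set -/
lemma exists_enum {S : Set ℕ} (hS : S.Finite) : ∃ (n : ℕ) (s : Fin n → ℕ), range s = S := by
  classical
  refine ⟨hS.toFinset.card, fun i => (hS.toFinset.equivFin.symm i : ℕ), ?_⟩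
  ext x
  constructor
  · rintro ⟨i, rfl⟩
    exact hS.mem_toFinset.1 (hS.toFinset.equivFin.symm i).2
  · intro hx
    exact ⟨hS.toFinset.equivFin ⟨x, hS.mem_toFinset.2 hx⟩, by simp⟩

/-- normalising permutations up to local equivalence are described by finitely many data -/
lemma exists_data (hGRP : T_GRP) (hLOCP : T_LOCP) (G : Subgroup (Equiv.Perm ℕ)) (h1 : Finry G)
    (h2 : Olig G) (h3 : Reduced G) : ∃ (T : Type) (_ : Finite T) (Φ : Equiv.Perm ℕ → T),
      ∀ a a', Norm G a → Norm G a' → Φ a = Φ a' → Loc G univ (fun x => a' (a.symm x)) := by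
  classical
  have h2' := h2
  have hC := hGRP G h1 h2
  have hK : (acl G ∅).Finite := by simpa using hC.fin ∅
  -- representatives of tuples
  choose E hE hE2 using h2
  choose ρ hρ hh hhG hh2 using hE2
  -- enumerations of the cells
  have hcell : ∀ x, (cell G x).Finite := fun x => by
    refine (hC.fin {x}).subset ?_
    intro y hy
    simpa using hy.1
  choose n s hs using fun x => exists_enum (hcell x)
  -- representatives of points
  let P : Set ℕ := (fun e : Fin 1 → ℕ => e 0) '' E 1
  have hP : P.Finite := (hE 1).image _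
  have : Finite P := hP
  have : Finite (acl G ∅) := hK
  have : ∀ k, Finite (E k) := hE
  let Φ : Equiv.Perm ℕ → (acl G ∅ → Option (acl G ∅)) × ((e : P) → E (n e)) := fun a =>
    (fun x => if h : a x ∈ acl G ∅ then some ⟨a x, h⟩ else none,
      fun e => ⟨ρ (n e) (fun i => a (s e i)), hρ _ _⟩)
  refine ⟨_, inferInstance, Φ, ?_⟩
  intro a a' ha ha' hΦ
  have hΦ1 : ∀ x ∈ acl G ∅, a x = a' x := by
    intro x hx
    have e := congrFun (congrArg Prod.fst hΦ) ⟨x, hx⟩
    have e1 : a x ∈ acl G ∅ := (ha.mem_acl_empty x).2 hx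
    have e2 : a' x ∈ acl G ∅ := (ha'.mem_acl_empty x).2 hx
    simp only [Φ, e1, e2, dite_true] at e
    exact congrArg Subtype.val (Option.some.inj e)
  have hΦ2 : ∀ e ∈ P, ∃ h ∈ G, ∀ y ∈ cell G e, a' y = h (a y) := by
    intro e he
    have e0 : ρ (n e) (fun i => a (s e i)) = ρ (n e) (fun i => a' (s e i)) :=
      congrArg Subtype.val (congrFun (congrArg Prod.snd hΦ) ⟨e, he⟩)
    refine ⟨hh _ (fun i => a' (s e i)) * (hh _ (fun i => a (s e i)))⁻¹,
      G.mul_mem (hhG _ _) (G.inv_mem (hhG _ _)), ?_⟩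
    intro y hy
    rw [← hs e] at hy
    obtain ⟨i, rfl⟩ := hy
    have e1 := hh2 _ (fun i => a (s e i)) i
    have e2 := hh2 _ (fun i => a' (s e i)) i
    have e3 : (hh _ (fun i => a (s e i)))⁻¹ (a (s e i)) = ρ (n e) (fun i => a (s e i)) i := by
      rw [Equiv.Perm.inv_eq_iff_eq]
      exact e1.symm
    rw [Equiv.Perm.mul_apply, e3, e0, e2]
  refine hLOCP G h1 h2' h3 univ (fun x => a' (a.symm x)) ?_ (fun _ _ _ => subset_univ _) ?_ ?_
  · intro x _ y _ hxy
    exact a.symm.injective (a'.injective hxy)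
  · intro x _ hx
    have hx' : a.symm x ∈ acl G ∅ := by
      rw [← ha.mem_acl_empty, Equiv.apply_symm_apply]
      exact hx
    change a' (a.symm x) = x
    rw [← hΦ1 _ hx', Equiv.apply_symm_apply]
  · intro z _ hz
    have hz' : a.symm z ∉ acl G ∅ := by
      rw [← ha.mem_acl_empty, Equiv.apply_symm_apply]
      exact hz
    -- representative
    let t : Fin 1 → ℕ := fun _ => a.symm z
    have hgt := hh2 1 t 0
    set g := hh 1 t with hg
    have hgG : g ∈ G := hhG 1 t
    have he : ρ 1 t 0 ∈ P := ⟨ρ 1 t, hρ 1 t, rfl⟩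
    set e := ρ 1 t 0 with hedef
    change g e = a.symm z at hgt
    obtain ⟨h, hhG', hh'⟩ := hΦ2 e he
    refine ⟨(a' * g * a'⁻¹) * h * (a * g * a⁻¹)⁻¹, G.mul_mem (G.mul_mem ((ha' g).1 hgG) hhG')
      (G.inv_mem ((ha g).1 hgG)), ?_⟩
    intro y hy
    have hy1 : g⁻¹ (a.symm y) ∈ cell G e := by
      have e1 : a (a.symm y) ∈ cell G (a (a.symm z)) := by
        rw [Equiv.apply_symm_apply, Equiv.apply_symm_apply]
        exact hy
      rw [ha.mem_cell, ← hgt] at e1
      rw [← (Norm.of_mem hgG).mem_cell e (g⁻¹ (a.symm y))]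
      simpa using e1
    have e2 := hh' _ hy1
    have e3 : (a * g * a⁻¹)⁻¹ y = a (g⁻¹ (a.symm y)) := by
      simp [mul_assoc]
    rw [Equiv.Perm.mul_apply, Equiv.Perm.mul_apply, e3, ← e2]
    simp

/-- level-`m` isomorphisms from `d` to `c` -/
def RR {C : Type} (c d : Str ℕ C) (m : ℕ) : Set (Equiv.Perm ℕ) :=
  {q | ∀ l : List ℕ, l.length ≤ m → c (l.map q) = d l}

/-- local equivalence of level-`m` isomorphisms -/
def RRsetoid {C : Type} (c d : Str ℕ C) (m : ℕ) : Setoid (RR c d m) where
  r q q' := Loc (core (FinAut (tr m c))) univ (fun x => (q' : Equiv.Perm ℕ) (q.1.symm x))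
  iseqv := by
    refine ⟨?_, ?_, ?_⟩
    · intro q
      have : (fun x => (q : Equiv.Perm ℕ) (q.1.symm x)) = ((1 : Equiv.Perm ℕ) : ℕ → ℕ) := by
        funext x
        simp
      rw [this]
      exact Loc.of_mem (Subgroup.one_mem _) _
    · intro q q' h
      have : (fun x => (q' : Equiv.Perm ℕ) (q.1.symm x)) = ((q'.1 * q.1⁻¹ : Equiv.Perm ℕ)) := rfl
      rw [this] at h
      exact h.symm
    · intro q q' q'' h h'
      have := Loc.comp h' h (mapsTo_univ _ _)
      have e : ((fun x => (q'' : Equiv.Perm ℕ) (q'.1.symm x)) ∘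
          fun x => (q' : Equiv.Perm ℕ) (q.1.symm x)) = fun x => (q'' : Equiv.Perm ℕ) (q.1.symm x) := by
        funext x
        simp
      rw [e] at this
      exact this

theorem FRAME : T_GRP → T_CORE → T_TOWN → T_LOCP → T_FRAME := by
  intro hGRP hCORE hTOWN hLOCP C c d hol hiso
  classical
  have htow := hTOWN C c hol
  have hanti : ∀ i j, i ≤ j → core (FinAut (tr j c)) ≤ core (FinAut (tr i c)) := by
    intro i j hij
    exact antitone_nat_of_succ_le (f := fun m => core (FinAut (tr m c))) htow.anti hij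
  have hRmono : ∀ i j, i ≤ j → RR c d j ⊆ RR c d i := fun i j hij q hq l hl => hq l (hl.trans hij)
  let α : ℕ → Type := fun m => Quotient (RRsetoid c d m)
  have hne : ∀ m, Nonempty (α m) := fun m => by
    obtain ⟨g, hg⟩ := hiso m
    exact ⟨Quotient.mk (RRsetoid c d m) ⟨g, hg⟩⟩
  have hfin : ∀ m, Finite (α m) := by
    intro m
    obtain ⟨q0, hq0⟩ := hiso m
    obtain ⟨T, hT, Φ, hΦ⟩ := exists_data hGRP hLOCP (core (FinAut (tr m c))) (htow.fin m)
      (htow.olig m) (htow.red m)
    have hnorm : ∀ q : RR c d m, Norm (core (FinAut (tr m c))) (q.1 * q0⁻¹) := by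
      intro q
      apply Norm.core
      apply Norm.finAut
      intro l hl
      rw [Equiv.Perm.coe_mul, ← List.map_map, q.2 _ (by simpa using hl), ← hq0 _ (by simpa using hl),
        List.map_map]
      congr 1
      conv_rhs => rw [← List.map_id l]
      congr 1
      funext x
      simp
    let F : α m → T := fun x => Φ ((Quotient.out x).1 * q0⁻¹)
    apply Finite.of_injective F
    intro x y hxy
    have h1 := hΦ _ _ (hnorm (Quotient.out x)) (hnorm (Quotient.out y)) hxy
    have e : (fun z => ((Quotient.out y).1 * q0⁻¹) (((Quotient.out x).1 * q0⁻¹).symm z)) =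
        fun z => (Quotient.out y).1 ((Quotient.out x).1.symm z) := by
      funext z
      simp [Equiv.Perm.mul_def]
    rw [e] at h1
    rw [← Quotient.out_eq x, ← Quotient.out_eq y]
    exact Quotient.sound h1
  let π : {i j : ℕ} → (hij : i ≤ j) → α j → α i := fun {i j} hij =>
    Quotient.map' (s₁ := RRsetoid c d j) (s₂ := RRsetoid c d i)
      (fun q => ⟨q.1, hRmono i j hij q.2⟩) (by
        intro q q' h
        exact Loc.mono_group h (hanti i j hij))
  have := hfin 0
  obtain ⟨f, hf⟩ := exists_seq_forall_proj_of_forall_finite (α := α) π (by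
      intro i a
      induction a using Quotient.inductionOn with
      | h a => rfl) (by
      intro i j k hij hjk a
      induction a using Quotient.inductionOn with
      | h a => rfl) (by
      intro i a
      have := hfin (i + 1)
      exact Set.toFinite _)
  refine ⟨fun m => (Quotient.out (f m)).1, ?_, fun m l hl => (Quotient.out (f m)).2 l hl⟩
  intro m
  have h1 := hf (Nat.le_succ m)
  have h2 : Quotient.mk (RRsetoid c d m)
      ⟨(Quotient.out (f (m + 1))).1, hRmono m (m + 1) (Nat.le_succ m)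
        (Quotient.out (f (m + 1))).2⟩ = Quotient.mk (RRsetoid c d m) (Quotient.out (f m)) := by
    rw [Quotient.out_eq (f m), ← h1]
    conv_rhs => rw [← Quotient.out_eq (f (m + 1))]
    rfl
  exact Quotient.exact h2

end Pool.Agent.H46.UV
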