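import Pool.Agent.H72.UV.Targets
import Pool.Agent.H46.UV.Norm

/-!
Module ISO: isomorphisms between full substructures respect the tower.
-/

set_option autoImplicit false

open Set

namespace Pool.Agent.H46.UV

open Pool.Agent.H71 (Fx orb acl mem_Fx orb_eq)
open Pool.Agent.H72.UV

section

variable {G : Subgroup (Equiv.Perm ℕ)}

/-- a local map on `B` preserves everything -/
lemma loc_facts {B : Set ℕ} {f : ℕ → ℕ} (h : Loc G B f) {x y : ℕ} (hx : x ∈ B) (hy : y ∈ B) :
    (f x ∈ acl G ∅ ↔ x ∈ acl G ∅) ∧ (f y ∈ orb G ∅ (f x) ↔ y ∈ orb G ∅ x) ∧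
      (f y ∈ cell G (f x) ↔ y ∈ cell G x) := by
  obtain ⟨g, hg, hg2⟩ := h {x, y} (by
    intro z hz
    simp only [Finset.coe_insert, Finset.coe_singleton, mem_insert_iff, mem_singleton_iff] at hz
    rcases hz with rfl | rfl
    · exact hx
    · exact hy)
  have e1 : f x = g x := hg2 x (by simp)
  have e2 : f y = g y := hg2 y (by simp)
  have hn := Norm.of_mem hg
  rw [e1, e2]
  exact ⟨hn.mem_acl_empty x, hn.mem_orb_empty x y, hn.mem_cell x y⟩

/-- local maps by level-`m` automorphisms preserve the structure -/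
lemma loc_str {C : Type} {c : Str ℕ C} {m : ℕ} {B : Set ℕ} {f : ℕ → ℕ}
    (h : Loc (core (FinAut (tr m c))) B f) (l : List ℕ) (hl : ∀ x ∈ l, x ∈ B)
    (hlen : l.length ≤ m) : c (l.map f) = c l := by
  classical
  obtain ⟨g, hg, hg2⟩ := h l.toFinset (by
    intro z hz
    exact hl z (by simpa using hz))
  have h1 : l.map f = l.map g := by
    apply List.map_congr_left
    intro x hx
    exact hg2 x (by simpa using hx)
  rw [h1]
  exact (mem_finAut_tr.1 hg.1).2 l hlen

end

/-- level-`m` facts -/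
lemma iso_level {C : Type} {c : Str ℕ C} {m : ℕ} {B B' : Set ℕ} {f f' φ : ℕ → ℕ}
    (hf : BijOn f B univ) (hf' : BijOn f' B' univ)
    (hL : Loc (core (FinAut (tr m c))) B f) (hL' : Loc (core (FinAut (tr m c))) B' f')
    (hφ : IsIso c φ B B') {x y : ℕ} (hx : x ∈ B) (hy : y ∈ B) :
    (x ∈ acl (core (FinAut (tr m c))) ∅ ↔ φ x ∈ acl (core (FinAut (tr m c))) ∅) ∧
    (y ∈ orb (core (FinAut (tr m c))) ∅ x ↔ φ y ∈ orb (core (FinAut (tr m c))) ∅ (φ x)) ∧
    (y ∈ cell (core (FinAut (tr m c))) x ↔ φ y ∈ cell (core (FinAut (tr m c))) (φ x)) := by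
  classical
  -- the inverse of `f`
  have hinv : ∀ n : ℕ, ∃ b ∈ B, f b = n := fun n => by
    obtain ⟨b, hb, hb2⟩ := hf.surjOn (mem_univ n)
    exact ⟨b, hb, hb2⟩
  choose fi hfi hfi2 using hinv
  have hfi3 : ∀ b ∈ B, fi (f b) = b := fun b hb => hf.injOn (hfi _) hb (hfi2 _)
  let ψ0 : ℕ → ℕ := fun n => f' (φ (fi n))
  have hbij : Function.Bijective ψ0 := by
    constructor
    · intro a b hab
      have h1 := hf'.injOn (hφ.1.mapsTo (hfi a)) (hφ.1.mapsTo (hfi b)) hab
      have h2 := hφ.1.injOn (hfi a) (hfi b) h1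
      rw [← hfi2 a, ← hfi2 b, h2]
    · intro n
      obtain ⟨b', hb', rfl⟩ := hf'.surjOn (mem_univ n)
      obtain ⟨b, hb, rfl⟩ := hφ.1.surjOn hb'
      exact ⟨f b, by simp only [ψ0]; rw [hfi3 b hb]⟩
  let ψ : Equiv.Perm ℕ := Equiv.ofBijective ψ0 hbij
  have hψ : ∀ b ∈ B, ψ (f b) = f' (φ b) := by
    intro b hb
    change f' (φ (fi (f b))) = f' (φ b)
    rw [hfi3 b hb]
  have hstr : ∀ l : List ℕ, l.length ≤ m → c (l.map ψ) = c l := by
    intro l hl
    have h0 : l = (l.map fi).map f := by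
      rw [List.map_map]
      conv_lhs => rw [← List.map_id l]
      apply List.map_congr_left
      intro n _
      exact (hfi2 n).symm
    have hB : ∀ z ∈ l.map fi, z ∈ B := by
      intro z hz
      obtain ⟨n, _, rfl⟩ := List.mem_map.1 hz
      exact hfi n
    have h1 : c l = c (l.map fi) := by
      conv_lhs => rw [h0]
      exact loc_str hL _ hB (by simpa using hl)
    have h2 : l.map ψ = ((l.map fi).map φ).map f' := by
      rw [List.map_map, List.map_map]
      rfl
    rw [h2, loc_str hL' _ _ (by simpa using hl), hφ.2 _ hB, h1]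
    intro z hz
    obtain ⟨b, hb, rfl⟩ := List.mem_map.1 hz
    exact hφ.1.mapsTo (hB b hb)
  have hn := (Norm.finAut hstr).core
  have F := loc_facts hL hx hy
  have F' := loc_facts hL' (hφ.1.mapsTo hx) (hφ.1.mapsTo hy)
  have N1 := hn.mem_acl_empty (f x)
  have N2 := hn.mem_orb_empty (f x) (f y)
  have N3 := hn.mem_cell (f x) (f y)
  rw [hψ x hx] at N1 N2 N3
  rw [hψ y hy] at N2 N3
  refine ⟨?_, ?_, ?_⟩
  · rw [← F.1, ← N1, F'.1]
  · rw [← F.2.1, ← N2, F'.2.1]
  · rw [← F.2.2, ← N3, F'.2.2]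

theorem ISO : T_ISO := by
  intro C c _ B B' hB hB' φ hφ
  choose f hf hL using hB
  choose f' hf' hL' using hB'
  have key : ∀ m, ∀ x ∈ B, ∀ y ∈ B, _ := fun m x hx y hy =>
    iso_level (hf m) (hf' m) (hL m) (hL' m) hφ hx hy
  refine ⟨?_, ?_, ?_⟩
  · intro x hx
    simp only [Kinf, mem_iUnion]
    exact exists_congr fun m => (key m x hx x hx).1
  · intro x hx y hy
    simp only [Pool.Agent.H72.UV.Seq]
    exact forall_congr' fun m => (key m x hx y hy).2.1
  · intro x hx y hy _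
    simp only [comp, mem_iUnion]
    exact exists_congr fun m => (key m x hx y hy).2.2

end Pool.Agent.H46.UV
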