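import Pool.Agent.H72.UV.Targets
import Pool.Agent.H46.UV.Norm

/-!
Module SUB: substructures with infinitely many cells of each kind.
-/

set_option autoImplicit false

open Set

namespace Pool.Agent.H46.UV

open Pool.Agent.H71 (Fx orb acl mem_Fx orb_eq orb_symm self_mem_orb subset_acl)
open Pool.Agent.H72.UV

/-- a classwise bijection between a subset meeting every class in an infinite set and the whole
countable type -/
lemma exists_classwise {X : Type} [Countable X] (r : Setoid X) (S : Set X)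
    (h : ∀ x, {y | y ∈ S ∧ r x y}.Infinite) : ∃ β : S ≃ X, ∀ s : S, r (s : X) (β s) := by
  classical
  let q : X → Quotient r := Quotient.mk r
  let p : S → Quotient r := fun s => q s
  have hinf : ∀ c : Quotient r, Infinite {x : S // p x = c} ∧ Infinite {x : X // q x = c} := by
    intro c
    induction c using Quotient.inductionOn with
    | h a =>
      have h1 := h a
      have h2 : Infinite {y // y ∈ {y | y ∈ S ∧ r a y}} := h1.to_subtype
      constructor
      · refine Infinite.of_injective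
          (fun y : {y // y ∈ {y | y ∈ S ∧ r a y}} => (⟨⟨y.1, y.2.1⟩, (Quotient.sound y.2.2).symm⟩ :
            {x : S // p x = Quotient.mk r a})) ?_
        intro y y' hyy
        exact Subtype.ext (congrArg (fun z => ((z : {x : S // p x = Quotient.mk r a}).1 : X)) hyy)
      · refine Infinite.of_injective
          (fun y : {y // y ∈ {y | y ∈ S ∧ r a y}} => (⟨y.1, (Quotient.sound y.2.2).symm⟩ :
            {x : X // q x = Quotient.mk r a})) ?_
        intro y y' hyy
        exact Subtype.ext (congrArg (fun z => (z : {x : X // q x = Quotient.mk r a}).1) hyy)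
  have he : ∀ c : Quotient r, Nonempty ({x : S // p x = c} ≃ {x : X // q x = c}) := by
    intro c
    have := (hinf c).1
    have := (hinf c).2
    exact nonempty_equiv_of_countable
  let e : ∀ c : Quotient r, {x : S // p x = c} ≃ {x : X // q x = c} := fun c => (he c).some
  let β : S ≃ X := (Equiv.sigmaFiberEquiv p).symm.trans
    ((Equiv.sigmaCongrRight e).trans (Equiv.sigmaFiberEquiv q))
  refine ⟨β, fun s => ?_⟩
  have h1 : q (β s) = p s := (e (p s) ⟨s, rfl⟩).2
  exact Quotient.exact h1.symm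

section

variable {H : Subgroup (Equiv.Perm ℕ)}

lemma self_mem_cell {x : ℕ} (hx : x ∉ acl H ∅) : x ∈ cell H x :=
  ⟨subset_acl H {x} (by simp), hx⟩

lemma cell_image {g : Equiv.Perm ℕ} (hg : g ∈ H) (x : ℕ) : g '' cell H x = cell H (g x) := by
  ext z
  constructor
  · rintro ⟨y, hy, rfl⟩
    exact ((Norm.of_mem hg).mem_cell x y).2 hy
  · intro hz
    refine ⟨g⁻¹ z, ?_, by simp⟩
    rw [← (Norm.of_mem hg).mem_cell x (g⁻¹ z)]
    simpa using hz

end

theorem SUB : T_GRP → T_TOW → T_LOCP → T_SUB := by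
  intro hGRP hTOW hLOCP G hG B hKB hcomp hinf m
  classical
  obtain ⟨-, -, -, t4, -, -, -⟩ := hTOW G hG
  have hC := hGRP (G m) (hG.fin m) (hG.olig m)
  set H := G m with hH
  have hfin : ∀ x, (cell H x).Finite := fun x => by
    refine (hC.fin {x}).subset ?_
    intro y hy
    simpa using hy.1
  have hcellB : ∀ x ∈ B, x ∉ acl H ∅ → cell H x ⊆ B := by
    intro x hx hxK
    by_cases hx2 : x ∈ Kinf G
    · exact (t4 m x hx2 hxK).trans hKB
    · exact (subset_iUnion (fun m => cell (G m) x) m).trans (hcomp x hx hx2)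
  -- the cells
  let X : Type := {C : Set ℕ // ∃ x, x ∉ acl H ∅ ∧ C = cell H x}
  let toX : {x : ℕ // x ∉ acl H ∅} → X := fun x => ⟨cell H x, x, x.2, rfl⟩
  have hsurj : Function.Surjective toX := by
    rintro ⟨C, x, hx, rfl⟩
    exact ⟨⟨x, hx⟩, rfl⟩
  have : Countable X := hsurj.countable
  let r : Setoid X :=
    { r := fun C C' => ∃ g ∈ H, g '' C.1 = C'.1
      iseqv := by
        refine ⟨?_, ?_, ?_⟩
        · intro C
          exact ⟨1, H.one_mem, by simp⟩
        · rintro C C' ⟨g, hg, hgC⟩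
          refine ⟨g⁻¹, H.inv_mem hg, ?_⟩
          rw [← hgC, image_image]
          simp
        · rintro C C' C'' ⟨g, hg, hgC⟩ ⟨g', hg', hgC'⟩
          refine ⟨g' * g, H.mul_mem hg' hg, ?_⟩
          rw [← hgC', ← hgC, image_image]
          rfl }
  let S : Set X := {C | C.1 ⊆ B}
  have hS : ∀ C : X, {C' | C' ∈ S ∧ r C C'}.Infinite := by
    intro C hfinite
    obtain ⟨C, x, hx, rfl⟩ := C
    apply hinf m x hx
    have h1 : (⋃ C' ∈ {C' | C' ∈ S ∧ r ⟨cell H x, x, hx, rfl⟩ C'}, (C' : X).1).Finite := by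
      refine hfinite.biUnion ?_
      rintro ⟨C', y, hy, rfl⟩ _
      exact hfin y
    refine h1.subset ?_
    rintro y ⟨hy, hyB⟩
    obtain ⟨g, hg, rfl⟩ := mem_orb_empty.1 hy
    have hgx : g x ∉ acl H ∅ := by
      rw [(Norm.of_mem hg).mem_acl_empty]
      exact hx
    refine mem_biUnion (x := (⟨cell H (g x), g x, hgx, rfl⟩ : X)) ⟨?_, ?_⟩ (self_mem_cell hgx)
    · exact hcellB _ hyB hgx
    · exact ⟨g, hg, cell_image hg x⟩
  obtain ⟨β, hβ⟩ := exists_classwise r S hS
  have hγ : ∀ C : Set ℕ, ∃ g : Equiv.Perm ℕ, ∀ (hC : ∃ x, x ∉ acl H ∅ ∧ C = cell H x)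
      (hCB : C ⊆ B), g ∈ H ∧ g '' C = (β ⟨⟨C, hC⟩, hCB⟩).1 := by
    intro C
    by_cases hC : (∃ x, x ∉ acl H ∅ ∧ C = cell H x) ∧ C ⊆ B
    · obtain ⟨g, hg, hg2⟩ := hβ ⟨⟨C, hC.1⟩, hC.2⟩
      exact ⟨g, fun _ _ => ⟨hg, hg2⟩⟩
    · exact ⟨1, fun h1 h2 => absurd ⟨h1, h2⟩ hC⟩
  choose γ hγ using hγ
  let f : ℕ → ℕ := fun y => if y ∈ acl H ∅ then y else γ (cell H y) y
  have hfK : ∀ y ∈ acl H ∅, f y = y := fun y hy => if_pos hy
  have hfC : ∀ y, y ∉ acl H ∅ → f y = γ (cell H y) y := fun y hy => if_neg hy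
  have hcellX : ∀ y, y ∉ acl H ∅ → ∃ x, x ∉ acl H ∅ ∧ cell H y = cell H x := fun y hy =>
    ⟨y, hy, rfl⟩
  -- membership in cells
  have hmemX : ∀ (C : X), ∀ z ∈ C.1, z ∉ acl H ∅ ∧ C.1 = cell H z := by
    rintro ⟨C, x, hx, rfl⟩ z hz
    exact ⟨hz.2, (hC.exch x z hx hz).symm⟩
  have hfim : ∀ (y : ℕ) (hyB : y ∈ B) (hy : y ∉ acl H ∅),
      f y ∈ (β ⟨⟨cell H y, hcellX y hy⟩, hcellB y hyB hy⟩).1 := by
    intro y hyB hy
    rw [hfC y hy, ← (hγ (cell H y) (hcellX y hy) (hcellB y hyB hy)).2]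
    exact mem_image_of_mem _ (self_mem_cell hy)
  have hinj : InjOn f B := by
    intro y hy y' hy' hyy
    by_cases h1 : y ∈ acl H ∅
    · by_cases h2 : y' ∈ acl H ∅
      · rwa [hfK y h1, hfK y' h2] at hyy
      · exfalso
        have h3 := (hmemX _ _ (hfim y' hy' h2)).1
        rw [← hyy, hfK y h1] at h3
        exact h3 h1
    · by_cases h2 : y' ∈ acl H ∅
      · exfalso
        have h3 := (hmemX _ _ (hfim y hy h1)).1
        rw [hyy, hfK y' h2] at h3
        exact h3 h2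
      · have h3 := (hmemX _ _ (hfim y hy h1)).2
        have h4 := (hmemX _ _ (hfim y' hy' h2)).2
        rw [hyy, ← h4] at h3
        have h5 := β.injective (Subtype.ext h3)
        have h6 : cell H y = cell H y' := congrArg (fun z : S => (z : X).1) h5
        rw [hfC y h1, hfC y' h2, h6] at hyy
        exact (γ (cell H y')).injective hyy
  refine ⟨f, ⟨fun _ _ => mem_univ _, hinj, ?_⟩, ?_⟩
  · intro n _
    by_cases hn : n ∈ acl H ∅
    · exact ⟨n, hKB (mem_iUnion.2 ⟨m, hn⟩), hfK n hn⟩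
    · obtain ⟨⟨⟨C, hCX⟩, hCB⟩, hC2⟩ := β.surjective ⟨cell H n, hcellX n hn⟩
      have h1 := (hγ C hCX hCB).2
      rw [hC2] at h1
      have h2 : n ∈ (γ C) '' C := by
        rw [h1]
        exact self_mem_cell hn
      obtain ⟨y, hy, hyn⟩ := h2
      have h3 := hmemX ⟨C, hCX⟩ y hy
      refine ⟨y, hCB hy, ?_⟩
      rw [hfC y h3.1, ← h3.2]
      exact hyn
  · refine hLOCP H (hG.fin m) (hG.olig m) (hG.red m) B f hinj hcellB (fun x _ hx => hfK x hx) ?_
    intro x hx hxK
    refine ⟨γ (cell H x), (hγ _ (hcellX x hxK) (hcellB x hx hxK)).1, ?_⟩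
    intro y hy
    rw [hfC y hy.2, hC.exch x y hxK hy]

end Pool.Agent.H46.UV
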