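import Pool.Agent.H72.UV.Targets
import Pool.Agent.H46.UV.SUB

/-!
Module REAL: realising countably many strong types independently.
-/

set_option autoImplicit false

open Set

namespace Pool.Agent.H46.UV

open Pool.Agent.H71 (Fx orb acl mem_Fx orb_eq orb_symm orb_trans self_mem_orb subset_acl)
open Pool.Agent.H72.UV

lemma exists_dep_seq {α : Type} (P : ℕ → α → Prop) (R : ℕ → α → α → Prop) (a0 : α) (h0 : P 0 a0)
    (hs : ∀ m a, P m a → ∃ b, P (m + 1) b ∧ R m a b) :
    ∃ s : ℕ → α, (∀ m, P m (s m)) ∧ ∀ m, R m (s m) (s (m + 1)) := by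
  have h' : ∀ m a, ∃ b, P m a → P (m + 1) b ∧ R m a b := by
    intro m a
    by_cases h : P m a
    · obtain ⟨b, hb⟩ := hs m a h
      exact ⟨b, fun _ => hb⟩
    · exact ⟨a, fun h1 => absurd h1 h⟩
  choose f hf using h'
  let s : ℕ → α := fun m => Nat.rec a0 (fun m a => f m a) m
  have hP : ∀ m, P m (s m) := by
    intro m
    induction m with
    | zero => exact h0
    | succ m ih => exact (hf m (s m) ih).1
  exact ⟨s, hP, fun m => (hf m (s m) (hP m)).2⟩

/-- the invariant of the construction -/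
def PP (G : ℕ → Subgroup (Equiv.Perm ℕ)) (θ : ℕ → ℕ → Set ℕ) (m : ℕ)
    (s : Equiv.Perm ℕ × (ℕ → ℕ)) : Prop :=
  (∀ j < m, s.1 (s.2 j) ∈ θ j m) ∧
    ∀ i < m, ∀ j < m, i ≠ j → s.1 (s.2 i) ∉ cell (G m) (s.1 (s.2 j))

lemma exists_targets (H : Subgroup (Equiv.Perm ℕ)) (hfin : ∀ x, (cell H x).Finite)
    (τ : ℕ → Set ℕ) (hτ : ∀ j, (τ j).Infinite) (n : ℕ) :
    ∃ z : ℕ → ℕ, ∀ j < n, z j ∈ τ j ∧ ∀ i < j, z j ∉ cell H (z i) := by
  induction n with
  | zero => exact ⟨fun _ => 0, fun j hj => absurd hj (Nat.not_lt_zero j)⟩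
  | succ n ih =>
    obtain ⟨z, hz⟩ := ih
    have h1 : (⋃ i ∈ Finset.range n, cell H (z i)).Finite :=
      Set.Finite.biUnion (Finset.finite_toSet _) (fun i _ => hfin _)
    obtain ⟨v, hv, hv2⟩ := (hτ n).exists_notMem_finite h1
    refine ⟨Function.update z n v, ?_⟩
    intro j hj
    rcases Nat.lt_succ_iff_lt_or_eq.1 hj with hj | rfl
    · rw [Function.update_of_ne (Nat.ne_of_lt hj)]
      refine ⟨(hz j hj).1, fun i hi => ?_⟩
      rw [Function.update_of_ne (by omega)]
      exact (hz j hj).2 i hi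
    · rw [Function.update_self]
      refine ⟨hv, fun i hi => ?_⟩
      rw [Function.update_of_ne (by omega)]
      intro h
      apply hv2
      exact mem_biUnion (Finset.mem_coe.2 (Finset.mem_range.2 hi)) h

theorem REAL : T_GRP → T_TOW → T_CELL → T_REAL := by
  intro hGRP hTOW hCELL G hG θ hθ hθa
  classical
  obtain ⟨t1, -, t3, -, -, -, t7⟩ := hTOW G hG
  have hC : ∀ m, Cell (G m) := fun m => hGRP (G m) (hG.fin m) (hG.olig m)
  have hfin : ∀ m x, (cell (G m) x).Finite := fun m x => by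
    refine ((hC m).fin {x}).subset ?_
    intro y hy
    simpa using hy.1
  -- points of `θ j m` are not algebraic
  have hna : ∀ j m, ∀ y ∈ θ j m, y ∉ acl (G m) ∅ := by
    intro j m y hy
    obtain ⟨a, ha, h⟩ := hθ j m
    rw [h] at hy
    obtain ⟨g, hg, rfl⟩ := mem_orb_empty.1 hy
    rw [(Norm.of_mem hg).mem_acl_empty]
    exact ha
  have horb : ∀ j m, ∀ y ∈ θ j m, ∀ y' ∈ θ j m, ∃ g ∈ G m, g y = y' := by
    intro j m y hy y' hy'
    obtain ⟨a, ha, h⟩ := hθ j m
    rw [h] at hy hy'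
    exact mem_orb_empty.1 (orb_trans (orb_symm hy) hy')
  have horb2 : ∀ j m, ∀ y ∈ θ j m, ∀ g ∈ G m, g y ∈ θ j m := by
    intro j m y hy g hg
    obtain ⟨a, ha, h⟩ := hθ j m
    rw [h] at hy ⊢
    exact orb_trans hy (mem_orb_empty.2 ⟨g, hg, rfl⟩)
  have hθinf : ∀ j m, (θ j m).Infinite := by
    intro j m
    obtain ⟨a, ha, h⟩ := hθ j m
    rw [h]
    exact t7 m a ha
  have hθmono : ∀ j m n, m ≤ n → θ j n ⊆ θ j m := by
    intro j m n hmn
    exact antitone_nat_of_succ_le (f := θ j) (hθa j) hmn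
  -- cells which meet are equal
  have hmeet : ∀ m x y w, x ∉ acl (G m) ∅ → y ∉ acl (G m) ∅ → w ∈ cell (G m) x →
      w ∈ cell (G m) y → x ∈ cell (G m) y := by
    intro m x y w hx hy h1 h2
    rw [← (hC m).exch y w hy h2, (hC m).exch x w hx h1]
    exact self_mem_cell hx
  -- the step
  have hstep : ∀ m s, PP G θ m s → ∃ s', PP G θ (m + 1) s' ∧
      ((∃ h ∈ G m, s'.1 = h⁻¹ * s.1) ∧ ∀ j, j ≠ m → s'.2 j = s.2 j) := by
    rintro m ⟨p, x⟩ ⟨hP1, hP2⟩
    simp only at hP1 hP2
    obtain ⟨z, hz⟩ := exists_targets (G (m + 1)) (hfin (m + 1)) (fun j => θ j (m + 1))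
      (fun j => hθinf j (m + 1)) (m + 1)
    have hzna : ∀ j < m + 1, z j ∉ acl (G (m + 1)) ∅ := fun j hj => hna j _ _ (hz j hj).1
    have hzna' : ∀ j < m + 1, z j ∉ acl (G m) ∅ := fun j hj =>
      hna j _ _ (hθa j m (hz j hj).1)
    have hzd : ∀ i < m + 1, ∀ j < m + 1, i ≠ j → z i ∉ cell (G (m + 1)) (z j) := by
      intro i hi j hj hij h
      rcases Nat.lt_or_gt_of_ne hij with hlt | hgt
      · apply (hz j hj).2 i hlt
        rw [(hC (m + 1)).exch (z j) (z i) (hzna j hj) h]
        exact self_mem_cell (hzna j hj)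
      · exact (hz i hi).2 j hgt h
    have hzd' : ∀ i < m + 1, ∀ j < m + 1, i ≠ j → z i ∉ cell (G m) (z j) := by
      intro i hi j hj hij h
      exact hzd i hi j hj hij (t3 m (m + 1) (z j) (Nat.le_succ m) (hzna j hj) h)
    have hg : ∀ j, ∃ g : Equiv.Perm ℕ, j < m → g ∈ G m ∧ g (z j) = p (x j) := by
      intro j
      by_cases hj : j < m
      · obtain ⟨g, hg, hg2⟩ := horb j m (z j) (hθa j m (hz j (by omega)).1) (p (x j)) (hP1 j hj)
        exact ⟨g, fun _ => ⟨hg, hg2⟩⟩
      · exact ⟨1, fun h => absurd h hj⟩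
    choose g hg using hg
    have hpna : ∀ j < m, p (x j) ∉ acl (G m) ∅ := fun j hj => hna j m _ (hP1 j hj)
    let D : Finset ℕ := (Set.Finite.biUnion (Finset.finite_toSet (Finset.range m))
      (fun i _ => hfin m (z i))).toFinset
    have hD : ∀ y, y ∈ D ↔ ∃ j < m, y ∈ cell (G m) (z j) := by
      intro y
      simp [D]
    have hidx : ∀ y, ∃ j, y ∈ D → j < m ∧ y ∈ cell (G m) (z j) := by
      intro y
      by_cases hy : y ∈ D
      · obtain ⟨j, hj, hy2⟩ := (hD y).1 hy
        exact ⟨j, fun _ => ⟨hj, hy2⟩⟩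
      · exact ⟨0, fun h => absurd h hy⟩
    choose ix hix using hidx
    have hixu : ∀ y j, j < m → y ∈ cell (G m) (z j) → ix y = j := by
      intro y j hj hy
      have hyD : y ∈ D := (hD y).2 ⟨j, hj, hy⟩
      by_contra hne
      have h1 := hix y hyD
      exact hzd' (ix y) (by omega) j (by omega) hne
        (hmeet m _ _ y (hzna' _ (by omega)) (hzna' j (by omega)) h1.2 hy)
    let f : ℕ → ℕ := fun y => g (ix y) y
    have hf : ∀ y j, j < m → y ∈ cell (G m) (z j) → f y = g j y := by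
      intro y j hj hy
      simp only [f]
      rw [hixu y j hj hy]
    have hfc : ∀ y j, j < m → y ∈ cell (G m) (z j) → f y ∈ cell (G m) (p (x j)) := by
      intro y j hj hy
      rw [hf y j hj hy, ← (hg j hj).2, ← cell_image (hg j hj).1]
      exact mem_image_of_mem _ hy
    obtain ⟨h, hhG, hh⟩ := hCELL (G m) (hG.fin m) (hG.olig m) (hG.red m) D f (by
        intro y hy y' hy' hyy
        obtain ⟨j, hj, hyj⟩ := (hD y).1 hy
        obtain ⟨j', hj', hyj'⟩ := (hD y').1 hy'
        by_cases hjj : j = j'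
        · subst hjj
          rw [hf y j hj hyj, hf y' j hj hyj'] at hyy
          exact (g j).injective hyy
        · exfalso
          have h1 := hfc y j hj hyj
          have h2 := hfc y' j' hj' hyj'
          rw [← hyy] at h2
          exact hP2 j hj j' hj' hjj (hmeet m _ _ _ (hpna j hj) (hpna j' hj') h1 h2)) (by
        intro y hy hya w hw
        obtain ⟨j, hj, hyj⟩ := (hD y).1 hy
        rw [(hC m).exch (z j) y (hzna' j (by omega)) hyj] at hw
        exact (hD w).2 ⟨j, hj, hw⟩) (by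
        intro y hy hya
        obtain ⟨j, hj, hyj⟩ := (hD y).1 hy
        exact absurd hya hyj.2) (by
        intro y hy hya
        obtain ⟨j, hj, hyj⟩ := (hD y).1 hy
        refine ⟨g j, (hg j hj).1, fun w hw => ?_⟩
        rw [(hC m).exch (z j) y (hzna' j (by omega)) hyj] at hw
        exact hf w j hj hw)
    have hhz : ∀ j < m, h (z j) = p (x j) := by
      intro j hj
      have h1 := self_mem_cell (hzna' j (by omega))
      rw [← hh (z j) ((hD _).2 ⟨j, hj, h1⟩), hf (z j) j hj h1, (hg j hj).2]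
    have hval : ∀ j < m + 1, (h⁻¹ * p) (Function.update x m (p⁻¹ (h (z m))) j) = z j := by
      intro j hj
      rcases Nat.lt_succ_iff_lt_or_eq.1 hj with hj | rfl
      · rw [Function.update_of_ne (Nat.ne_of_lt hj), Equiv.Perm.mul_apply, ← hhz j hj]
        simp
      · rw [Function.update_self, Equiv.Perm.mul_apply]
        simp
    refine ⟨(h⁻¹ * p, Function.update x m (p⁻¹ (h (z m)))), ⟨?_, ?_⟩, ⟨h, hhG, rfl⟩, ?_⟩
    · intro j hj
      simp only
      rw [hval j hj]
      exact (hz j hj).1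
    · intro i hi j hj hij
      simp only
      rw [hval i hi, hval j hj]
      exact hzd i hi j hj hij
    · intro j hj
      exact Function.update_of_ne hj _ _
  obtain ⟨s, hs1, hs2⟩ := exists_dep_seq (PP G θ) (fun m s s' =>
    (∃ h ∈ G m, s'.1 = h⁻¹ * s.1) ∧ ∀ j, j ≠ m → s'.2 j = s.2 j) (1, fun _ => 0)
    ⟨fun j hj => absurd hj (Nat.not_lt_zero j), fun j hj => absurd hj (Nat.not_lt_zero j)⟩ hstep
  -- stability of the points
  have hx : ∀ j m, j < m → (s m).2 j = (s (j + 1)).2 j := by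
    intro j m hjm
    induction m, hjm using Nat.le_induction with
    | base => rfl
    | succ m hm ih => rw [(hs2 m).2 j (by omega), ih]
  have hp : ∀ m n, m ≤ n → (s m).1 * (s n).1⁻¹ ∈ G m := by
    intro m n hmn
    induction n, hmn using Nat.le_induction with
    | base => simp
    | succ n hn ih =>
      obtain ⟨h, hh, hh2⟩ := (hs2 n).1
      rw [hh2]
      have : (s m).1 * (h⁻¹ * (s n).1)⁻¹ = ((s m).1 * (s n).1⁻¹) * h := by
        simp [mul_assoc]
      rw [this]
      exact (G m).mul_mem ih (t1 m n hn hh)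
  refine ⟨fun m => (s m).1, ?_, fun j => (s (j + 1)).2 j, ?_, ?_⟩
  · intro m
    have h1 := hp m (m + 1) (Nat.le_succ m)
    exact Loc.of_mem h1 univ
  · intro j m
    have key : ∀ n, j < n → (s n).1 ((s (j + 1)).2 j) ∈ θ j n := by
      intro n hn
      have := (hs1 n).1 j hn
      rwa [hx j n hn] at this
    by_cases hjm : j < m
    · exact key m hjm
    · have h1 := key (j + 1) (Nat.lt_succ_self j)
      have h2 := hθmono j m (j + 1) (by omega) h1
      have h3 := horb2 j m _ h2 _ (hp m (j + 1) (by omega))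
      simpa using h3
  · intro i j m hij hmem
    let M := max m (max i j + 1)
    have hMm : m ≤ M := le_max_left _ _
    have hMi : i < M := lt_of_lt_of_le (Nat.lt_succ_of_le (le_max_left i j)) (le_max_right _ _)
    have hMj : j < M := lt_of_lt_of_le (Nat.lt_succ_of_le (le_max_right i j)) (le_max_right _ _)
    have h1 := (hs1 M).2 i hMi j hMj hij
    rw [hx i M hMi, hx j M hMj] at h1
    apply h1
    have h2 : ((s m).1 * (s M).1⁻¹)⁻¹ ∈ G m := (G m).inv_mem (hp m M hMm)
    have h3 := ((Norm.of_mem h2).mem_cell _ _).2 hmem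
    have e : ∀ y, ((s m).1 * (s M).1⁻¹)⁻¹ ((s m).1 y) = (s M).1 y := by
      intro y
      simp [mul_inv_rev]
    simp only at h3
    rw [e, e] at h3
    refine t3 m M _ hMm ?_ h3
    apply hna j M
    have := (hs1 M).1 j hMj
    rwa [hx j M hMj] at this

end Pool.Agent.H46.UV
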