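import Pool.Agent.H91.UV.TargetsB

set_option autoImplicit false

namespace Pool.Agent.H46.UV

open Finset Matrix Pool.Agent.H91.UV
open Pool.Agent.H70.UN (PosFam ERR E1 KU T_FAMU T_LASF)

theorem pf_E1B : S_E1B := by
  intro E L B d p e LAM R hE hL hd he0 he1 hLAM hR hp1 hp2
  have hpR1 : (2 : ℝ) ^ (4 * E) ≤ (p : ℝ) := by
    have : ((2 ^ (4 * E) : ℕ) : ℝ) ≤ (p : ℝ) := by exact_mod_cast hp1.le
    simpa using this
  have hpR2 : (p : ℝ) ≤ (2 : ℝ) ^ (4 * E + 1) := by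
    have : (p : ℝ) ≤ ((2 ^ (4 * E + 1) : ℕ) : ℝ) := by exact_mod_cast hp2
    simpa using this
  have h1E : (1 : ℝ) ≤ (2 : ℝ) ^ (4 * E + 1) := one_le_pow₀ (by norm_num)
  have hp0 : (0 : ℝ) < p := lt_of_lt_of_le (by positivity) hpR1
  have hQ1 : (p : ℝ) + 1 ≤ (2 : ℝ) ^ (4 * E + 2) := by
    have : (2 : ℝ) ^ (4 * E + 2) = (2 : ℝ) ^ (4 * E + 1) + (2 : ℝ) ^ (4 * E + 1) := by
      rw [pow_succ (2 : ℝ) (4 * E + 1)]; ring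
    rw [this]; linarith
  have hQ2 : 2 * ((p : ℝ) + 1) ≤ (2 : ℝ) ^ (4 * E + 3) := by
    have : (2 : ℝ) ^ (4 * E + 3) = 2 * (2 : ℝ) ^ (4 * E + 2) := by
      rw [pow_succ (2 : ℝ) (4 * E + 2)]; ring
    rw [this]; linarith
  have hKU : KU (p : ℝ) (1 + e) ≤ (2 : ℝ) ^ (2 * E + 2) := by
    unfold KU
    have h1 : (1 + e - 1) = e := by ring
    rw [h1]
    have h2 : ((p : ℝ) + 1) ^ e ≤ ((2 : ℝ) ^ (4 * E + 2)) ^ ((1 : ℝ) / 2) := by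
      calc ((p : ℝ) + 1) ^ e ≤ ((p : ℝ) + 1) ^ ((1 : ℝ) / 2) :=
            Real.rpow_le_rpow_of_exponent_le (by linarith) he1.le
        _ ≤ ((2 : ℝ) ^ (4 * E + 2)) ^ ((1 : ℝ) / 2) :=
            Real.rpow_le_rpow (by linarith) hQ1 (by norm_num)
    have h3 : ((2 : ℝ) ^ (4 * E + 2)) ^ ((1 : ℝ) / 2) = (2 : ℝ) ^ (2 * E + 1) := by
      have : (2 : ℝ) ^ (4 * E + 2) = ((2 : ℝ) ^ (2 * E + 1)) ^ 2 := by
        rw [← pow_mul]; congr 1; ring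
      rw [this, ← Real.sqrt_eq_rpow, Real.sqrt_sq (by positivity)]
    rw [h3] at h2
    calc 2 * ((p : ℝ) + 1) ^ e ≤ 2 * (2 : ℝ) ^ (2 * E + 1) := by linarith
      _ = (2 : ℝ) ^ (2 * E + 2) := by rw [pow_succ (2 : ℝ) (2 * E + 1)]; ring
  have hKU0 : 0 ≤ KU (p : ℝ) (1 + e) := by
    unfold KU; positivity
  have hA : 2 * ((p : ℝ) + 1) * KU (p : ℝ) (1 + e) * ((p : ℝ) / (1 + e - 1)) *
      (2 : ℝ) ^ (4 * E + 3) ≤ (2 : ℝ) ^ (14 * E + 9) * (1 / e) := by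
    have h1 : (1 + e - 1) = e := by ring
    rw [h1]
    have h2 : (p : ℝ) / e ≤ (2 : ℝ) ^ (4 * E + 1) * (1 / e) := by
      rw [div_eq_mul_one_div]
      exact mul_le_mul_of_nonneg_right hpR2 (by positivity)
    have h3 : (2 : ℝ) ^ (14 * E + 9) * (1 / e) =
        (2 : ℝ) ^ (4 * E + 3) * (2 : ℝ) ^ (2 * E + 2) * ((2 : ℝ) ^ (4 * E + 1) * (1 / e)) *
          (2 : ℝ) ^ (4 * E + 3) := by
      have : (2 : ℝ) ^ (14 * E + 9) = (2 : ℝ) ^ (4 * E + 3) * (2 : ℝ) ^ (2 * E + 2) *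
          (2 : ℝ) ^ (4 * E + 1) * (2 : ℝ) ^ (4 * E + 3) := by
        rw [← pow_add, ← pow_add, ← pow_add]; congr 1; ring
      rw [this]; ring
    rw [h3]
    gcongr
  have hA0 : 0 ≤ 2 * ((p : ℝ) + 1) * KU (p : ℝ) (1 + e) * ((p : ℝ) / (1 + e - 1)) *
      (2 : ℝ) ^ (4 * E + 3) := by
    have h1 : (1 + e - 1) = e := by ring
    rw [h1]; positivity
  have hB : (2 * ((p : ℝ) + 1) * KU (p : ℝ) (1 + e) * ((p : ℝ) / (1 + e - 1)) *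
      (2 : ℝ) ^ (4 * E + 3)) ^ B ≤ (2 : ℝ) ^ ((14 * E + 9) * B) * (1 / e) ^ B := by
    calc _ ≤ ((2 : ℝ) ^ (14 * E + 9) * (1 / e)) ^ B := pow_le_pow_left₀ hA0 hA B
      _ = _ := by rw [mul_pow, ← pow_mul]
  have hS : Real.sqrt ((((p ^ L : ℕ) : ℝ)) ^ (B - d)) ≤
      Real.sqrt (2 ^ ((4 * E + 1) * L * (B - d))) := by
    apply Real.sqrt_le_sqrt
    push_cast
    rw [pow_mul (2 : ℝ), pow_mul (2 : ℝ)]
    gcongr
  have hT : ((((p ^ L : ℕ) : ℝ)) ^ B) ^ (-(1 / (2 * (1 + e)))) ≤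
      (2 : ℝ) ^ (-(((4 * E * L * B : ℕ) : ℝ) / (2 * (1 + e)))) := by
    have h1 : (2 : ℝ) ^ (4 * E * L * B) ≤ (((p ^ L : ℕ) : ℝ)) ^ B := by
      push_cast
      rw [pow_mul (2 : ℝ), pow_mul (2 : ℝ) (4 * E) L]
      gcongr
    have h2 : (2 : ℝ) ^ (-(((4 * E * L * B : ℕ) : ℝ) / (2 * (1 + e)))) =
        ((2 : ℝ) ^ (4 * E * L * B)) ^ (-(1 / (2 * (1 + e)))) := by
      rw [← Real.rpow_natCast 2 (4 * E * L * B), ← Real.rpow_mul (by norm_num)]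
      congr 1
      ring
    rw [h2]
    apply Real.rpow_le_rpow_of_nonpos (by positivity) h1
    have : 0 ≤ 1 / (2 * (1 + e)) := by positivity
    linarith
  have hM : (LAM * R) ^ (1 + e - 1) = (LAM * R) ^ e := by
    congr 1; ring
  unfold E1
  rw [hM]
  calc (2 * ((p : ℝ) + 1) * KU (p : ℝ) (1 + e) * ((p : ℝ) / (1 + e - 1)) *
      (2 : ℝ) ^ (4 * E + 3)) ^ B * (LAM * R) ^ e * Real.sqrt (((p ^ L : ℕ) : ℝ) ^ (B - d)) *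
      (((p ^ L : ℕ) : ℝ) ^ B) ^ (-(1 / (2 * (1 + e)))) * Real.sqrt R
      ≤ ((2 : ℝ) ^ ((14 * E + 9) * B) * (1 / e) ^ B) * (LAM * R) ^ e *
        Real.sqrt (2 ^ ((4 * E + 1) * L * (B - d))) *
        (2 : ℝ) ^ (-(((4 * E * L * B : ℕ) : ℝ) / (2 * (1 + e)))) * Real.sqrt R := by
        gcongr
    _ = _ := by ring

end Pool.Agent.H46.UV
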